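import Pool.Agent.Helper51.RP.Goals2

namespace Pool.Agent.Helper49.RPL

open NumberField Polynomial Module Pool.Agent.Helper51.RP

section lin

variable {p : ℕ} [Fact p.Prime] {V : Type} [AddCommGroup V] [Module (ZMod p) V]

lemma exists_idem {m : ℕ} (hm : m.Coprime p) {P : (ZMod p)[X]} (hP : P ∣ X ^ m - 1) :
    ∃ e h q : (ZMod p)[X], e - 1 = h * P ∧ e * P = q * (X ^ m - 1) := by
  obtain ⟨Q, hQ⟩ := hP
  have hm0 : ((m : ℕ) : ZMod p) ≠ 0 := by
    rw [Ne, ZMod.natCast_eq_zero_iff]
    intro hdvd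
    have h1 : p ∣ Nat.gcd m p := Nat.dvd_gcd hdvd dvd_rfl
    rw [hm] at h1
    exact (Fact.out : p.Prime).one_lt.ne' (Nat.dvd_one.1 h1)
  have hsep : (X ^ m - 1 : (ZMod p)[X]).Separable := by
    have := separable_X_pow_sub_C (n := m) (1 : ZMod p) hm0 one_ne_zero
    rwa [map_one] at this
  rw [hQ] at hsep
  obtain ⟨a, b, hab⟩ := hsep.isCoprime
  refine ⟨b * Q, -a, b, ?_, ?_⟩
  · rw [← hab]; ring
  · rw [hQ]; ring

/-- the linear algebra -/
lemma lin_main {m : ℕ} (hm : m.Coprime p) {P : (ZMod p)[X]} (hP : P ∣ X ^ m - 1)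
    (D : V →ₗ[ZMod p] V) (hD : D ^ m = 1) (U G : Submodule (ZMod p) V)
    (hU : ∀ x ∈ U, D x ∈ U) (hG : ∀ x ∈ G, D x ∈ G)
    (v : V) (hv : aeval D P v ∈ G)
    (hnot : ∀ u ∈ U, aeval D P u = 0 → v - u ∉ G) :
    ∃ f : V →ₗ[ZMod p] ZMod p, (∀ x ∈ U, f x = 0) ∧ (∀ x ∈ G, f x = 0) ∧
      (∀ x, f (aeval D P x) = 0) ∧ f v ≠ 0 := by
  obtain ⟨e, h, q, he, heP⟩ := exists_idem hm hP
  have hstab : ∀ (W : Submodule (ZMod p) V), (∀ x ∈ W, D x ∈ W) → ∀ (F : (ZMod p)[X]),
      ∀ x ∈ W, aeval D F x ∈ W := by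
    intro W hW F x hx
    induction F using Polynomial.induction_on' with
    | add a b ha hb => rw [map_add, LinearMap.add_apply]; exact W.add_mem ha hb
    | monomial n c =>
      rw [aeval_monomial]
      have h1 : ∀ n : ℕ, (D ^ n) x ∈ W := by
        intro n
        induction n with
        | zero => simpa using hx
        | succ n ih => rw [pow_succ', Module.End.mul_apply]; exact hW _ ih
      rw [Module.algebraMap_end_eq_smul_id]
      simp only [Module.End.mul_apply, LinearMap.smul_apply, LinearMap.id_coe, id_eq]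
      exact W.smul_mem _ (h1 n)
  have hkill : ∀ x, aeval D e (aeval D P x) = 0 := by
    intro x
    rw [← Module.End.mul_apply, ← map_mul, heP, map_mul, map_sub, map_pow, aeval_X, map_one, hD,
      sub_self, mul_zero]
    rfl
  have hkill' : ∀ x, aeval D P (aeval D e x) = 0 := by
    intro x
    rw [← Module.End.mul_apply, ← map_mul, mul_comm, heP, map_mul, map_sub, map_pow, aeval_X,
      map_one, hD, sub_self, mul_zero]
    rfl
  set W : Submodule (ZMod p) V := U ⊔ G ⊔ LinearMap.range (aeval D P : V →ₗ[ZMod p] V) with hW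
  have hvW : v ∉ W := by
    intro hvW
    rw [hW, Submodule.mem_sup] at hvW
    obtain ⟨ug, hug, y', hy', hsum⟩ := hvW
    rw [Submodule.mem_sup] at hug
    obtain ⟨u, hu, g, hg, rfl⟩ := hug
    obtain ⟨y, rfl⟩ := hy'
    refine hnot (aeval D e u) (hstab U hU e u hu) (hkill' u) ?_
    have h1 : aeval D e v = v + aeval D h (aeval D P v) := by
      rw [← Module.End.mul_apply, ← map_mul, ← he, map_sub, map_one]
      simp
    have h2 : aeval D e v = aeval D e u + aeval D e g := by
      rw [← hsum, map_add, map_add, hkill, add_zero]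
    have h3 : v - aeval D e u = aeval D e g - aeval D h (aeval D P v) := by
      have h4 : v + aeval D h (aeval D P v) = aeval D e u + aeval D e g := h1.symm.trans h2
      rw [sub_eq_sub_iff_add_eq_add, h4]
      abel
    rw [h3]
    exact G.sub_mem (hstab G hG e g hg) (hstab G hG h _ hv)
  obtain ⟨f, hf, hker⟩ := Submodule.exists_le_ker_of_notMem hvW
  refine ⟨f, ?_, ?_, ?_, hf⟩
  · intro x hx
    exact hker (Submodule.mem_sup_left (Submodule.mem_sup_left hx))
  · intro x hx
    exact hker (Submodule.mem_sup_left (Submodule.mem_sup_right hx))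
  · intro x
    exact hker (Submodule.mem_sup_right ⟨x, rfl⟩)

end lin

section quot

variable {p : ℕ} [Fact p.Prime] {K M : Type} [Field K] [Field M] [Algebra K M]

lemma exists_quot (δ : M ≃ₐ[K] M) : ∃ (V : Type) (_ : AddCommGroup V) (_ : Module (ZMod p) V)
    (π : Additive Mˣ →+ V) (D : V →ₗ[ZMod p] V), Function.Surjective π ∧
    (∀ x : Mˣ, π (Additive.ofMul x) = 0 ↔ Pw p x) ∧
    ∀ x : Mˣ, π (Additive.ofMul (Units.map ((δ : M →+* M) : M →* M) x)) =
      D (π (Additive.ofMul x)) := by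
  let H : AddSubgroup (Additive Mˣ) := (nsmulAddMonoidHom (α := Additive Mˣ) p).range
  let _ : Module (ZMod p) (Additive Mˣ ⧸ H) := QuotientAddGroup.zmodModule (fun x => ⟨x, rfl⟩)
  let D0 : Additive Mˣ →+ Additive Mˣ :=
    (Units.map ((δ : M →+* M) : M →* M)).toAdditive
  have hD0 : H ≤ H.comap D0 := by
    rintro _ ⟨y, rfl⟩
    exact ⟨D0 y, by simp⟩
  refine ⟨Additive Mˣ ⧸ H, inferInstance, inferInstance, QuotientAddGroup.mk' H,
    (QuotientAddGroup.map H H D0 hD0).toZModLinearMap p, QuotientAddGroup.mk'_surjective H, ?_, ?_⟩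
  · intro x
    rw [QuotientAddGroup.mk'_apply, QuotientAddGroup.eq_zero_iff]
    constructor
    · rintro ⟨y, hy⟩
      exact ⟨y.toMul, by
        have := congrArg Additive.toMul hy
        simpa using this.symm⟩
    · rintro ⟨y, rfl⟩
      exact ⟨Additive.ofMul y, by simp⟩
  · intro x
    rfl

/-- `pol` becomes the polynomial in the operator -/
lemma pi_pol (δ : M ≃ₐ[K] M) {V : Type} [AddCommGroup V] [Module (ZMod p) V]
    (π : Additive Mˣ →+ V) (D : V →ₗ[ZMod p] V)
    (hD : ∀ x : Mˣ, π (Additive.ofMul (Units.map ((δ : M →+* M) : M →* M) x)) =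
      D (π (Additive.ofMul x))) (P : (ZMod p)[X]) (x : Mˣ) :
    π (Additive.ofMul (pol P δ x)) = aeval D P (π (Additive.ofMul x)) := by
  have hpow : ∀ (j : ℕ) (x : Mˣ),
      π (Additive.ofMul (Units.map (((δ ^ j : M ≃ₐ[K] M) : M →+* M) : M →* M) x)) =
      (D ^ j) (π (Additive.ofMul x)) := by
    intro j
    induction j with
    | zero =>
      intro x
      simp only [pow_zero, Module.End.one_apply]
      congr 2
    | succ j ih =>
      intro x
      rw [pow_succ' D, Module.End.mul_apply, ← ih, ← hD]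
      congr 2
      apply Units.ext
      simp only [Units.coe_map, MonoidHom.coe_coe]
      show (δ ^ (j + 1)) (x : M) = δ ((δ ^ j) (x : M))
      rw [pow_succ', AlgEquiv.mul_apply]
  rw [pol, MonoidHom.finsetProd_apply]
  simp only [MonoidHom.pow_apply]
  rw [ofMul_prod, map_sum]
  simp only [ofMul_pow, map_nsmul, hpow]
  rw [aeval_def, eval₂_eq_sum, Polynomial.sum, LinearMap.sum_apply]
  refine Finset.sum_congr rfl ?_
  intro j _
  rw [Module.algebraMap_end_eq_smul_id]
  simp only [Module.End.mul_apply, LinearMap.smul_apply, LinearMap.id_coe, id_eq]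
  rw [← Nat.cast_smul_eq_nsmul (ZMod p), ZMod.natCast_zmod_val]

end quot

/-- **S_LAM** -/
theorem _root_.Pool.Agent.Helper49.RP.s_lam : Pool.Agent.Helper51.RP.S_LAM := by
  classical
  intro p _ K M _ _ _ m δ P hm hδ _ hP U G hGp hGδ hUδ N hN1 hN2 hx0
  obtain ⟨V, _, _, π, D, hsurj, hker, hD⟩ := exists_quot (p := p) δ
  have hpol := pi_pol δ π D hD
  have hmul : ∀ x y : Mˣ, π (Additive.ofMul (x * y)) = π (Additive.ofMul x) + π (Additive.ofMul y) :=
    fun x y => by rw [ofMul_mul, map_add]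
  have hdiv : ∀ x y : Mˣ, π (Additive.ofMul (x / y)) = π (Additive.ofMul x) - π (Additive.ofMul y) :=
    fun x y => by rw [ofMul_div, map_sub]
  -- submodules
  let sub : Subgroup Mˣ → Submodule (ZMod p) V := fun H =>
    { carrier := {v | ∃ x ∈ H, π (Additive.ofMul x) = v}
      add_mem' := by
        rintro _ _ ⟨x, hx, rfl⟩ ⟨y, hy, rfl⟩
        exact ⟨x * y, H.mul_mem hx hy, hmul x y⟩
      zero_mem' := ⟨1, H.one_mem, by simp⟩
      smul_mem' := by
        rintro c _ ⟨x, hx, rfl⟩
        refine ⟨x ^ c.val, H.pow_mem hx _, ?_⟩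
        rw [ofMul_pow, map_nsmul, ← Nat.cast_smul_eq_nsmul (ZMod p), ZMod.natCast_zmod_val] }
  have hsubG : ∀ x : Mˣ, π (Additive.ofMul x) ∈ sub G ↔ x ∈ G := by
    intro x
    constructor
    · rintro ⟨y, hy, hxy⟩
      have h1 : π (Additive.ofMul (x / y)) = 0 := by rw [hdiv, hxy, sub_self]
      have h2 := hGp _ ((hker _).1 h1)
      have := G.mul_mem h2 hy
      rwa [div_mul_cancel] at this
    · intro hx
      exact ⟨x, hx, rfl⟩
  have hDm : D ^ m = 1 := by
    apply LinearMap.ext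
    intro v
    obtain ⟨x, rfl⟩ := hsurj v
    have h1 := hpol (X ^ m) x.toMul
    have hpow : ∀ (j : ℕ) (x : Mˣ),
        π (Additive.ofMul (Units.map (((δ ^ j : M ≃ₐ[K] M) : M →+* M) : M →* M) x)) =
        (D ^ j) (π (Additive.ofMul x)) := by
      intro j
      induction j with
      | zero =>
        intro x
        simp only [pow_zero, Module.End.one_apply]
        congr 2
      | succ j ih =>
        intro x
        rw [pow_succ' D, Module.End.mul_apply, ← ih, ← hD]
        congr 2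
        apply Units.ext
        simp only [Units.coe_map, MonoidHom.coe_coe]
        show (δ ^ (j + 1)) (x : M) = δ ((δ ^ j) (x : M))
        rw [pow_succ', AlgEquiv.mul_apply]
    have h2 := hpow m x.toMul
    rw [hδ] at h2
    rw [Module.End.one_apply]
    exact h2.symm
  obtain ⟨x₀, hx₀U, hx₀G, hx₀P, hx₀n⟩ := hx0
  obtain ⟨F, hFc, hFP, hFd⟩ := hN2
  -- the finite set B₁
  set B : Set V := {v | v ∈ sub U ∧ aeval D P v = 0} with hB
  have hBfin : ∀ E : Finset V, (↑E : Set V) ⊆ B → E.card ≤ N := by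
    intro E hE
    have hch : ∀ v ∈ E, ∃ x : Mˣ, x ∈ U ∧ π (Additive.ofMul x) = v := by
      intro v hv
      obtain ⟨x, hx, hxv⟩ := (hE hv).1
      exact ⟨x, hx, hxv⟩
    choose! c hc using hch
    have hinj : Set.InjOn c (E : Set V) := by
      intro v hv w hw hvw
      rw [← (hc v hv).2, ← (hc w hw).2, hvw]
    rw [← Finset.card_image_of_injOn hinj]
    apply hN1
    · intro x hx
      rw [Finset.mem_image] at hx
      obtain ⟨v, hv, rfl⟩ := hx
      refine ⟨(hc v hv).1, ?_⟩
      rw [← hker, hpol, (hc v hv).2]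
      exact (hE hv).2
    · intro x hx y hy hxy
      rw [Finset.mem_image] at hx hy
      obtain ⟨v, hv, rfl⟩ := hx
      obtain ⟨w, hw, rfl⟩ := hy
      rw [← hker, hdiv, (hc v hv).2, (hc w hw).2, sub_eq_zero]
      rintro rfl
      exact hxy rfl
  have hBadd : ∀ u ∈ B, ∀ v ∈ B, u + v ∈ B := by
    intro u hu v hv
    exact ⟨(sub U).add_mem hu.1 hv.1, by rw [map_add, hu.2, hv.2, add_zero]⟩
  have hB0 : (0 : V) ∈ B := ⟨(sub U).zero_mem, map_zero _⟩
  have hv₀B : π (Additive.ofMul x₀) ∈ B := by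
    refine ⟨⟨x₀, hx₀U, rfl⟩, ?_⟩
    rw [← hpol, hker]
    exact hx₀P
  have hv₀G : π (Additive.ofMul x₀) ∈ sub G := (hsubG x₀).2 hx₀G
  have hv₀ne : π (Additive.ofMul x₀) ≠ 0 := fun h => hx₀n ((hker _).1 h)
  have key : ∃ x₁ ∈ F, ∀ u ∈ B, π (Additive.ofMul x₁) - u ∉ sub G := by
    by_contra hcon
    push Not at hcon
    choose! u hu using hcon
    have hinj : Set.InjOn u (F : Set Mˣ) := by
      intro x hx y hy hxy
      by_contra hne
      apply hFd x hx y hy hne
      rw [← hsubG, hdiv]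
      have h1 := (sub G).sub_mem (hu x hx).2 (hu y hy).2
      rw [hxy, sub_sub_sub_cancel_right] at h1
      exact h1
    have hEc : (F.image u).card = N := by rw [Finset.card_image_of_injOn hinj, hFc]
    have hEB : (↑(F.image u) : Set V) ⊆ B := by
      intro v hv
      rw [Finset.mem_coe, Finset.mem_image] at hv
      obtain ⟨x, hx, rfl⟩ := hv
      exact (hu x hx).1
    have hall : ∀ v ∈ B, v ∈ F.image u := by
      intro v hv
      by_contra hnot
      have h1 := hBfin (insert v (F.image u)) (by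
        intro z hz
        rw [Finset.mem_coe, Finset.mem_insert] at hz
        rcases hz with rfl | hz
        · exact hv
        · exact hEB hz)
      rw [Finset.card_insert_of_notMem hnot, hEc] at h1
      omega
    have h0 := hall 0 hB0
    rw [Finset.mem_image] at h0
    obtain ⟨x, hx, -⟩ := h0
    have h1 := hall (u x + π (Additive.ofMul x₀)) (hBadd _ (hu x hx).1 _ hv₀B)
    rw [Finset.mem_image] at h1
    obtain ⟨y, hy, hyx⟩ := h1
    have hxy : x = y := by
      by_contra hne
      apply hFd x hx y hy hne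
      rw [← hsubG, hdiv]
      have h2 := (sub G).sub_mem (hu x hx).2 (hu y hy).2
      rw [hyx] at h2
      have h3 := (sub G).sub_mem h2 hv₀G
      have e : π (Additive.ofMul x) - u x - (π (Additive.ofMul y) -
          (u x + π (Additive.ofMul x₀))) - π (Additive.ofMul x₀) =
          π (Additive.ofMul x) - π (Additive.ofMul y) := by abel
      rwa [e] at h3
    rw [hxy] at hyx
    have h4 : π (Additive.ofMul x₀) = 0 := by
      have := hyx.symm
      rwa [add_eq_left] at this
    exact hv₀ne h4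
  obtain ⟨x₁, hx₁F, hx₁⟩ := key
  have hsubD : ∀ H : Subgroup Mˣ, (∀ x ∈ H, Units.map ((δ : M →+* M) : M →* M) x ∈ H) →
      ∀ x ∈ sub H, D x ∈ sub H := by
    rintro H hH _ ⟨x, hx, rfl⟩
    exact ⟨_, hH x hx, hD x⟩
  obtain ⟨f, hfU, hfG, hfP, hfv⟩ := lin_main hm hP D hDm (sub U) (sub G) (hsubD U hUδ)
    (hsubD G hGδ) (π (Additive.ofMul x₁)) (by rw [← hpol, hsubG]; exact hFP x₁ hx₁F)
    (fun u hu hu0 => hx₁ u ⟨hu, hu0⟩)
  refine ⟨fun x => f (π (Additive.ofMul x)), ?_, ?_, ?_, ?_, x₁, hfv⟩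
  · intro x y
    simp only [hmul, map_add]
  · intro x hx
    exact hfU _ ⟨x, hx, rfl⟩
  · intro x hx
    exact hfG _ ⟨x, hx, rfl⟩
  · intro x
    simp only [hpol]
    exact hfP _

end Pool.Agent.Helper49.RPL
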