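import Pool.Agent.Helper26.RP.Goals

/-! Packet THL: a triangle is the intersection of three half-planes. -/

namespace RP.PkTHL

open RP

theorem convex_HL (α β γ : ℝ) : Convex ℝ (HL α β γ) := by
  intro x hx y hy a b ha hb hab
  have hx' : α * x.1 + β * x.2 ≤ γ := hx
  have hy' : α * y.1 + β * y.2 ≤ γ := hy
  show α * (a • x + b • y).1 + β * (a • x + b • y).2 ≤ γ
  simp only [Prod.fst_add, Prod.snd_add, Prod.smul_fst, Prod.smul_snd, smul_eq_mul]
  have h1 := mul_le_mul_of_nonneg_left hx' ha
  have h2 := mul_le_mul_of_nonneg_left hy' hb
  have h3 : γ = a * γ + b * γ := by rw [← add_mul, hab, one_mul]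
  rw [h3]
  linarith

theorem mem_iff (p q z : E) (D : ℝ) :
    z ∈ HL (D * (q.2 - p.2)) (-(D * (q.1 - p.1)))
      (D * ((q.2 - p.2) * p.1 - (q.1 - p.1) * p.2)) ↔ 0 ≤ D * orient p q z := by
  unfold HL orient
  simp only [Set.mem_ofPred_eq]
  constructor <;> intro h <;> nlinarith

theorem nondeg {p q r : E} (h : orient p q r ≠ 0) :
    orient p q r * (q.2 - p.2) ≠ 0 ∨ -(orient p q r * (q.1 - p.1)) ≠ 0 := by
  by_contra hc
  push Not at hc
  obtain ⟨h1, h2⟩ := hc
  have h3 : q.2 - p.2 = 0 := (mul_eq_zero.1 h1).resolve_left h
  have h4 : q.1 - p.1 = 0 := (mul_eq_zero.1 (neg_eq_zero.1 h2)).resolve_left h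
  apply h
  unfold orient
  rw [h3, h4]
  ring

theorem thl : G_THL := by
  intro p q r hD
  set D := orient p q r with hDdef
  have c1 : orient q r p = D := by rw [hDdef]; unfold orient; ring
  have c2 : orient r p q = D := by rw [hDdef]; unfold orient; ring
  have z1 : orient p q p = 0 := by unfold orient; ring
  have z2 : orient p q q = 0 := by unfold orient; ring
  have z3 : orient q r q = 0 := by unfold orient; ring
  have z4 : orient q r r = 0 := by unfold orient; ring
  have z5 : orient r p r = 0 := by unfold orient; ring
  have z6 : orient r p p = 0 := by unfold orient; ring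
  have hDD : 0 ≤ D * D := mul_self_nonneg D
  refine ⟨![D * (q.2 - p.2), D * (r.2 - q.2), D * (p.2 - r.2)],
    ![-(D * (q.1 - p.1)), -(D * (r.1 - q.1)), -(D * (p.1 - r.1))],
    ![D * ((q.2 - p.2) * p.1 - (q.1 - p.1) * p.2), D * ((r.2 - q.2) * q.1 - (r.1 - q.1) * q.2),
      D * ((p.2 - r.2) * r.1 - (p.1 - r.1) * r.2)], ?_, ?_⟩
  · intro i
    fin_cases i
    · exact nondeg hD
    · have h : orient q r p ≠ 0 := by rw [c1]; exact hD
      have h2 := nondeg h
      rw [c1] at h2
      exact h2
    · have h : orient r p q ≠ 0 := by rw [c2]; exact hD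
      have h2 := nondeg h
      rw [c2] at h2
      exact h2
  · simp only [Matrix.cons_val_zero, Matrix.cons_val_one, Matrix.cons_val]
    apply Set.Subset.antisymm
    · apply convexHull_min
      · intro z hz
        simp only [Set.mem_insert_iff, Set.mem_singleton_iff] at hz
        rw [Set.mem_inter_iff, Set.mem_inter_iff, mem_iff, mem_iff, mem_iff]
        rcases hz with rfl | rfl | rfl
        · rw [z1, c1, z6]
          simp [hDD]
        · rw [z2, z3, c2]
          simp [hDD]
        · rw [← hDdef, z4, z5]
          simp [hDD]
      · exact ((convex_HL _ _ _).inter (convex_HL _ _ _)).inter (convex_HL _ _ _)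
    · intro z hz
      rw [Set.mem_inter_iff, Set.mem_inter_iff, mem_iff, mem_iff, mem_iff] at hz
      obtain ⟨⟨h1, h2⟩, h3⟩ := hz
      have hd : ∀ t : ℝ, 0 ≤ D * t → 0 ≤ t / D := by
        intro t ht
        have : t / D = (D * t) / (D * D) := by field_simp
        rw [this]
        exact div_nonneg ht hDD
      have hconv := (convex_convexHull ℝ ({p, q, r} : Set E)).sum_mem
        (t := Finset.univ) (w := ![orient q r z / D, orient r p z / D, orient p q z / D])
        (z := ![p, q, r]) ?_ ?_ ?_
      · have hz : ∑ i : Fin 3, (![orient q r z / D, orient r p z / D, orient p q z / D] i) •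
            (![p, q, r] i) = z := by
          rw [Fin.sum_univ_three]
          simp only [Matrix.cons_val_zero, Matrix.cons_val_one, Matrix.cons_val]
          have hD' : D ≠ 0 := hD
          ext
          · simp only [Prod.fst_add, Prod.smul_fst, smul_eq_mul]
            field_simp
            rw [hDdef]
            unfold orient
            ring
          · simp only [Prod.snd_add, Prod.smul_snd, smul_eq_mul]
            field_simp
            rw [hDdef]
            unfold orient
            ring
        rw [hz] at hconv
        exact hconv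
      · intro i _
        fin_cases i
        · exact hd _ h2
        · exact hd _ h3
        · exact hd _ h1
      · rw [Fin.sum_univ_three]
        simp only [Matrix.cons_val_zero, Matrix.cons_val_one, Matrix.cons_val]
        rw [← add_div, ← add_div, div_eq_one_iff_eq hD, hDdef]
        unfold orient
        ring
      · intro i _
        apply subset_convexHull
        fin_cases i
        · simp
        · simp
        · simp

end RP.PkTHL
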